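import Mathlib
import Pool.Prelude.Def_F_c31e40fa
import Pool.Agent.Run7.h598.PP.Uni2

set_option autoImplicit false

open MeasureTheory Filter Metric Set

namespace Pool.Agent.Results.MP_af9036_an.AllReturnTimes

/-- The map `z ↦ z ^ n + c`. -/
def f (n : ℕ) (c : ℂ) : ℂ → ℂ := fun z => z ^ n + c

/-- The escape rate (Green's function) of `z ↦ z ^ n + c` at the point `z`. -/
noncomputable def green (n : ℕ) (c z : ℂ) : ℝ :=
  limsup (fun k : ℕ => Real.posLog ‖(f n c)^[k] z‖ / (n : ℝ) ^ k) atTop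

/-- `B n c s a b` is `(n / π)` times the geometric mean of two moments of the sublevel set
`{green ≤ s}`, where `a + b = n - 2`. For `n = 2` it is `(2 / π)` times the area of the set. -/
noncomputable def B (n : ℕ) (c : ℂ) (s : ℝ) (a b : ℕ) : ℝ :=
  n / Real.pi * √((∫ z in {z | green n c z ≤ s}, ‖z‖ ^ (2 * a)) *
    ∫ z in {z | green n c z ≤ s}, ‖z‖ ^ (2 * b))

theorem minPer {n : ℕ} (hn : 2 ≤ n) {c : ℂ} (hc : c ≠ 0) {p : ℕ} (hp : p.Prime)
    (h : (f n c)^[p] 0 = 0) : Function.minimalPeriod (f n c) 0 = p := by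
  have h1 : Function.IsPeriodicPt (f n c) p 0 := h
  rcases (Nat.dvd_prime hp).mp h1.minimalPeriod_dvd with h2 | h2
  · exfalso
    have h3 : f n c 0 = 0 := Function.minimalPeriod_eq_one_iff_isFixedPt.mp h2
    have h4 : (0 : ℂ) ^ n + c = 0 := h3
    rw [zero_pow (by omega), zero_add] at h4
    exact hc h4
  · exact h2

/-- Superattracting parameters of every return time `m` (of exact period `m` if `m` is prime) near
every point of the Multibrot set `M_n`, with constants that depend neither on the degree `n` nor on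
the return time `m`. -/
theorem result :
    -- (1) all derivatives of the critical orbit up to the time `m - 1`, and the scale `n ^ (1 - m)`
    (∃ C : ℝ, 0 < C ∧ ∀ n m : ℕ, 2 ≤ n → 2 ≤ m → ∀ c ∈ N62a1eb23.multibrotSet n, ∃ c' : ℂ,
      c' ≠ 0 ∧ (f n c')^[m] 0 = 0 ∧ N62a1eb23.IsAttractingCycle (f n c') m 0 ∧
      (m.Prime → Function.minimalPeriod (f n c') 0 = m) ∧
      (∀ j, 1 ≤ j → j < m →
        n * ‖c' - c‖ * ‖deriv (fun a => (f n a)^[j] 0) c‖ ≤
          C * (1 + n * |1 - ‖(f n c)^[j] 0‖|)) ∧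
      (∀ b : ℝ, 4 / (n : ℝ) ≤ b → b ≤ 1 →
        (∀ j, 1 ≤ j → j < m → b ≤ ‖(f n c)^[j] 0‖ ^ (n - 1)) →
        ‖c' - c‖ ≤ C * (1 + Real.log (1 / b)) * (2 / b) ^ (m - 2) / (n : ℝ) ^ (m - 1))) ∧
    -- (2) level sets of Green's function
    (∀ ε : ℝ, 0 < ε → ∃ K : ℝ, 0 < K ∧ ∀ n m : ℕ, 2 ≤ n → 2 ≤ m →
      (∀ γ : ℂ → ℂ, DifferentiableOn ℂ γ (ball 0 1) → γ 0 ∈ N62a1eb23.multibrotSet n →
        (∀ t ∈ ball (0 : ℂ) 1, (f n (γ t))^[m] 0 ≠ 0) →
        ∀ a b : ℕ, a + b + 2 = n →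
          ‖deriv γ 0‖ ≤ (1 + ε) * B n (γ 0) (K / (n : ℝ) ^ (m - 1)) a b) ∧
      ∀ c ∈ N62a1eb23.multibrotSet n, ∃ c' : ℂ, (f n c')^[m] 0 = 0 ∧
        N62a1eb23.IsAttractingCycle (f n c') m 0 ∧
        ∀ a b : ℕ, a + b + 2 = n → ‖c' - c‖ ≤ (1 + ε) * B n c (K / (n : ℝ) ^ (m - 1)) a b) := by
  refine ⟨?_, ?_⟩
  · have hCZ : 0 < Pool.Agent.Run7.h598.PP.CZ := by
      have := Pool.Agent.Run7.h598.PP.one_le_CU 1
      unfold Pool.Agent.Run7.h598.PP.CZ
      linarith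
    refine ⟨4 * Pool.Agent.Run7.h598.PP.CZ, by positivity, ?_⟩
    intro n m hn hm c hc
    obtain ⟨J, rfl⟩ : ∃ J, m = J + 2 := ⟨m - 2, by omega⟩
    obtain ⟨c', h0, hP, hD⟩ := Pool.Agent.Run7.h598.PP.exists_zero (J := J) hn hc
    refine ⟨c', h0, hP, Pool.Agent.H548R3.MB.att_of_centre hn (by omega) hP,
      fun hp => minPer hn h0 hp hP, ?_, ?_⟩
    · intro j hj1 hj
      have h1 := hD j hj1 (by omega)
      refine le_trans h1 ?_
      have h2 : 0 ≤ 1 + (n : ℝ) * |1 - ‖Pool.Agent.H712R2.P n j c‖| := by positivity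
      exact mul_le_mul_of_nonneg_right (by linarith) h2
    · intro b hb hb1 h
      have hn0 : (0 : ℝ) < n := by
        have : 0 < n := by omega
        exact_mod_cast this
      have h1 := Pool.Agent.Run7.h598.PP.scale_bd hn hc (hD (J + 1) (by omega) le_rfl) hb hb1
        (fun j h1 h2 => h j h1 (by omega))
      have h2 : J + 2 - 2 = J := by omega
      have h3 : J + 2 - 1 = J + 1 := by omega
      rw [h2, h3, le_div_iff₀ (by positivity), mul_comm]
      exact h1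
  · intro ε hε
    obtain ⟨k, hk⟩ := Pool.Agent.H548R3.MB.exists_k hε
    refine ⟨_, Pool.Agent.Run7.h598.PP.KU_pos k, ?_⟩
    intro n m hn hm
    obtain ⟨J, rfl⟩ : ∃ J, m = J + 2 := ⟨m - 2, by omega⟩
    have h3 : J + 2 - 1 = J + 1 := by omega
    rw [h3]
    constructor
    · intro γ hγ hc hno a b hab
      exact Pool.Agent.H548R3.MB.scale hε (norm_nonneg _) hk
        (Pool.Agent.Run7.h598.PP.disc_ineqU hab hγ hc (fun t ht h4 => hno t ht h4) k)
    · intro c hc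
      obtain ⟨c', hc', h⟩ := Pool.Agent.Run7.h598.PP.nearestU hn hc J
      refine ⟨c', hc', Pool.Agent.H548R3.MB.att_of_centre hn (by omega) hc', ?_⟩
      intro a b hab
      exact Pool.Agent.H548R3.MB.scale hε (norm_nonneg _) hk (h k a b hab)

end Pool.Agent.Results.MP_af9036_an.AllReturnTimes
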