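import Mathlib
import Pool.Prelude.Def_F_c31e40fa
import Pool.Agent.Run7.h911.Fin2

set_option autoImplicit false

open Filter Metric

namespace Pool.Agent.Results.MP_af9036_an.ClosingOfReturns

/-- The polynomial `z ^ n + c`. -/
def f (n : ℕ) (c : ℂ) : ℂ → ℂ := fun z => z ^ n + c

/-- The parameters `c` for which `z ^ n + c` has an attracting cycle. -/
def hyp (n : ℕ) : Set ℂ := {c | ∃ m z, N62a1eb23.IsAttractingCycle (f n c) m z}

/-- There is a parameter `c'` with `|c' - c| ≤ s` such that `z ^ n + c'` has an attracting cycle of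
period at most `N`. -/
def Near (n N : ℕ) (c : ℂ) (s : ℝ) : Prop :=
  ∃ c' : ℂ, ‖c' - c‖ ≤ s ∧ ∃ p ≤ N, ∃ z, N62a1eb23.IsAttractingCycle (f n c') p z

/-- The points `f^j(c)`, `1 ≤ j < J`, are at distance at least `R` from the critical value `c`. -/
def Ret (n : ℕ) (c : ℂ) (J : ℕ) (R : ℝ) : Prop :=
  ∀ j, 1 ≤ j → j < J → R ≤ ‖(f n c)^[j] c - c‖

/-- Closing of returns of the critical value, for all the parameters of the Multibrot set. -/
theorem result (n : ℕ) (hn : 2 ≤ n) : ∃ A : ℕ,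
    -- (1) a return at time `J` and a point `z` that escapes at time `N`
    (∀ c ∈ N62a1eb23.multibrotSet n, ∀ N : ℕ, 2 ≤ N → ∀ J : ℕ, 1 ≤ J → J ≤ N →
      ∀ z : ℂ, 3 ≤ ‖(f n c)^[N] z‖ → ∀ R : ℝ, 0 < R → R ≤ 1 → Ret n c J R →
      Near n (N + 2) c ((N * (1 + |Real.log R|)) ^ A / R *
        max ‖z - c‖ (‖(f n c)^[J] c - c‖ / max 1 ‖deriv (f n c)^[J] c‖))) ∧
    -- (2) a return at time `N`; here `‖(f n c)^[N] c - c‖ = ‖(f n c)^[N] 0‖ ^ n`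
    (∀ c ∈ N62a1eb23.multibrotSet n, ∀ N : ℕ, 2 ≤ N → ∀ R : ℝ, 0 < R → R ≤ 1 → Ret n c N R →
      Near n (N + 2) c ((N : ℝ) ^ A / R * ‖(f n c)^[N] 0‖ ^ (n - 1))) ∧
    -- (3) a criterion for density of hyperbolicity at `c`
    (∀ c ∈ N62a1eb23.multibrotSet n,
      (∃ᶠ N : ℕ in atTop, ∃ R : ℝ, 0 < R ∧ R ≤ 1 ∧ Ret n c N R ∧
        (N : ℝ) ^ (A + 1) * ‖(f n c)^[N] 0‖ ^ (n - 1) ≤ R) →
      c ∈ closure (hyp n)) := by
  obtain ⟨A1, h1⟩ := Run7.h911.fin_close hn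
  obtain ⟨A2, h2⟩ := Run7.h911.fin_close2 hn
  have hP : ∀ (c : ℂ) (k : ℕ), deriv (f n c)^[k] c = Pool.Agent.W746.LD.P n c c k := fun c k =>
    (Pool.Agent.W746.LD.hasDerivAt_orb c k).deriv
  have h0 : ∀ (c : ℂ) (N : ℕ), 2 ≤ N → (f n c)^[N] 0 = Pool.Agent.W746.LD.orb n c c (N - 1) := by
    intro c N hN
    obtain ⟨k, rfl⟩ : ∃ k, N = k + 1 := ⟨N - 1, by omega⟩
    have : f n c 0 = c := by
      unfold f
      rw [zero_pow (by omega), zero_add]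
    rw [Function.iterate_succ_apply, this]
    rfl
  have part2 : ∀ c ∈ N62a1eb23.multibrotSet n, ∀ N : ℕ, 2 ≤ N → ∀ R : ℝ, 0 < R → R ≤ 1 →
      Ret n c N R → Near n (N + 2) c ((N : ℝ) ^ (max A1 A2) / R * ‖(f n c)^[N] 0‖ ^ (n - 1)) := by
    intro c hc N hN R hR hR1 hr
    rw [h0 c N hN]
    exact h2 _ (le_max_right _ _) c hc N hN R hR hR1 hr
  refine ⟨max A1 A2, ?_, part2, ?_⟩
  · intro c hc N hN J hJ1 hJN z hz R hR hR1 hr
    rw [hP]
    exact h1 _ (le_max_left _ _) c hc N hN J hJ1 hJN z hz R hR hR1 hr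
  · intro c hc hfreq
    rw [Metric.mem_closure_iff]
    intro ε hε
    obtain ⟨N, ⟨R, hR, hR1, hr, hbig⟩, hN⟩ := (hfreq.and_eventually
      (eventually_ge_atTop (max 2 (⌈1 / ε⌉₊ + 1)))).exists
    have hN2 : 2 ≤ N := (le_max_left _ _).trans hN
    have hNε : ⌈1 / ε⌉₊ + 1 ≤ N := (le_max_right _ _).trans hN
    have hN0 : (0 : ℝ) < N := by exact_mod_cast (by omega : 0 < N)
    obtain ⟨c', h3, p, -, z, hz⟩ := part2 c hc N hN2 R hR hR1 hr
    refine ⟨c', ⟨p, z, hz⟩, ?_⟩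
    rw [dist_comm, dist_eq_norm]
    refine lt_of_le_of_lt h3 ?_
    have h7 : 1 / ε < N := by
      have h8 := Nat.le_ceil (1 / ε)
      have h9 : ((⌈1 / ε⌉₊ + 1 : ℕ) : ℝ) ≤ N := by exact_mod_cast hNε
      push_cast at h9
      linarith
    have h4 : (N : ℝ) ^ (max A1 A2) / R * ‖(f n c)^[N] 0‖ ^ (n - 1) ≤ 1 / N := by
      rw [div_mul_eq_mul_div, div_le_div_iff₀ hR hN0]
      rw [pow_succ] at hbig
      linarith
    refine lt_of_le_of_lt h4 ?_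
    rw [div_lt_iff₀ hN0]
    rw [div_lt_iff₀ hε] at h7
    linarith

end Pool.Agent.Results.MP_af9036_an.ClosingOfReturns
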