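import Mathlib
import Pool.Prelude.Def_F_c31e40fa
import Pool.Agent.Run7.h819.Inv4

/-!
# Collet-Eckmann parameters: density of hyperbolicity, and hidden from the interior

Let `d ≥ 2`, let `M` be the Multibrot set of degree `d`, and let `c₀ ∈ M` satisfy the Collet-Eckmann
condition: the derivatives of the iterates of `z ^ d + c₀` at the critical value grow exponentially.

* Hyperbolicity is superlinearly dense near `c₀`: with some exponent `σ > 1`, every `c ∈ M` is within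
  `C |c - c₀| ^ σ` of a superattracting parameter and of the complement of `M`, uniformly for all
  Collet-Eckmann parameters with given constants, in all degrees.
* The interior of `M` does not see `c₀`: every holomorphic map `φ` of the unit disc into `M`
  approaches `c₀` at most logarithmically, `|φ(z) - c₀| ≥ (A + C log (1 / (1 - |z|))) ^ (-1 / (σ - 1))`;
  if `φ` is univalent then the harmonic measure (seen from `φ(0)`) of the `s`-neighbourhood of the set
  of all Collet-Eckmann parameters with given constants is at most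
  `exp (- c s ^ (-(σ - 1)))` up to constants.
* So no conformal map into `M` has Collet-Eckmann parameters as radial limits, except for a set of
  angles of measure zero. From outside nothing else is seen: almost every external ray lands at a
  Collet-Eckmann parameter, and there all exponents `σ < d / (d - 1)` are allowed.

The first part uses the starting file `Pool/Agent/Y298/CD/Fin.lean`, the typical parameters are from
`Pool/Agent/Y272/TY`; the rest is new: a differential inequality along the radii and the length-area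
method (`Pool/Agent/Run7/h819/Inv1.lean`, `Inv2.lean`, `Inv3.lean`).
-/

set_option autoImplicit false

open Filter Topology Set Metric MeasureTheory Complex N62a1eb23

namespace Pool.Agent.Results.MP_af9036_an.HiddenColletEckmann

open Pool.Agent.H713R2

/-- The polynomial `z ^ d + c`. -/
def f (d : ℕ) (c : ℂ) : ℂ → ℂ := fun z => z ^ d + c

/-- The filled Julia set of `z ^ d + c`. -/
def filledJulia (d : ℕ) (c : ℂ) : Set ℂ :=
  {z | ¬ Tendsto (fun n => (f d c)^[n] z) atTop (Bornology.cobounded ℂ)}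

/-- The Collet-Eckmann condition with explicit constants: `c` lies in the Multibrot set, and the
derivatives of the iterates of `f d c` at the critical value `c` grow at least like `lam ^ n / C₁`. -/
def ColletEckmann (d : ℕ) (C₁ lam : ℝ) (c : ℂ) : Prop :=
  c ∈ multibrotSet d ∧ ∀ n : ℕ, lam ^ n ≤ C₁ * ‖deriv ((f d c)^[n]) c‖

/-- A recurrence condition: the critical orbit approaches the critical point slowly. -/
def Recurrence (d : ℕ) (C₂ β : ℝ) (c : ℂ) : Prop :=
  ∀ n : ℕ, 1 ≤ C₂ * (‖(f d c)^[n] c‖ * ‖deriv ((f d c)^[n]) c‖ ^ β)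

/-- Near the parameters of the set `K` the Multibrot set is dense with attracting cycles, with the
exponent `σ`: every `c` in it is near to a superattracting parameter, and to a parameter outside, and
its filled Julia set is small. -/
def Dense (d : ℕ) (C σ : ℝ) (K : Set ℂ) : Prop :=
  ∀ c₀ ∈ K, ∀ c ∈ multibrotSet d, c ≠ c₀ →
    (∃ c' : ℂ, ‖c' - c‖ ≤ C * ‖c - c₀‖ ^ σ ∧ ∃ p : ℕ, 1 ≤ p ∧ (f d c')^[p] 0 = 0 ∧
      IsAttractingCycle (f d c') p 0) ∧
    (∃ c' : ℂ, ‖c' - c‖ ≤ C * ‖c - c₀‖ ^ σ ∧ c' ∉ multibrotSet d) ∧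
    volume (filledJulia d c) ≤ ENNReal.ofReal (C * ‖c - c₀‖ ^ (2 * σ / d))

/-- `c` is the radial limit of `φ` at the angle `t`. -/
def RadialLimit (φ : ℂ → ℂ) (t : ℝ) (c : ℂ) : Prop :=
  Tendsto (fun r : ℝ => φ (r * exp (t * I))) (𝓝[<] 1) (𝓝 c)

/-- The parameters of the set `K` are hidden from the interior of the Multibrot set: holomorphic maps
of the unit disc into the Multibrot set approach them at most logarithmically, and for univalent maps
the neighbourhoods of `K` have very small harmonic measure. -/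
def Hidden (d : ℕ) (C σ : ℝ) (K : Set ℂ) : Prop :=
  ∀ φ : ℂ → ℂ, DifferentiableOn ℂ φ (ball 0 1) → (∀ z ∈ ball (0 : ℂ) 1, φ z ∈ multibrotSet d) →
    (∀ c₀ ∈ K, φ 0 ≠ c₀ → ∀ z ∈ ball (0 : ℂ) 1, φ z ≠ c₀ ∧
      ‖φ z - c₀‖ ^ (-(σ - 1)) ≤ ‖φ 0 - c₀‖ ^ (-(σ - 1)) + C * Real.log (1 / (1 - ‖z‖))) ∧
    (InjOn φ (ball 0 1) → (∀ c₀ ∈ K, φ 0 ≠ c₀) ∧
      ∀ R s : ℝ, 0 < R → 0 < s → s ≤ 1 → (∀ c₀ ∈ K, R ≤ ‖φ 0 - c₀‖) →
        volume {t : ℝ | t ∈ Ioo (-Real.pi) Real.pi ∧ ∃ c, RadialLimit φ t c ∧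
          ∃ c₀ ∈ K, ‖c - c₀‖ < s} ≤
        ENNReal.ofReal (16 * Real.pi / s ^ 2 *
          Real.exp (-(((2 * s) ^ (-(σ - 1)) - R ^ (-(σ - 1))) / C))))

/-- `V` is a connected component of the interior of the Multibrot set. -/
def IsComponent (d : ℕ) (V : Set ℂ) : Prop :=
  ∃ c ∈ interior (multibrotSet d), V = connectedComponentIn (interior (multibrotSet d)) c

theorem hidden {d : ℕ} {C C' σ : ℝ} {K : Set ℂ} (h : Run7.h819.Inv.Super d C σ K) (hd : 2 ≤ d)
    (hC : 0 < C) (hσ : 1 < σ) (hCC : C' = (σ - 1) * C) : Hidden d C' σ K := by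
  subst hCC
  intro φ hφ hφM
  have hT := h.thin φ hφ hφM
  have hpi := Real.pi_pos
  refine ⟨fun c₀ hc₀ h0 z hz => ?_, fun hi => ⟨h.center_ne hC.le hσ hφ hi hφM, ?_⟩⟩
  · have h1 := Run7.h819.Inv.log_bound hT hσ hC.le hc₀ h0 hz
    rwa [one_div, Real.log_inv]
  · intro R s hR hs0 hs1 h0
    have h1 := Run7.h819.Inv.meas_near hT hi hσ hC hR h0 hφM (A := 4 * Real.pi) (by linarith)
      (Run7.h819.Inv.vol_M hd) hs0 hs1
    have h2 : 4 * (4 * Real.pi) = 16 * Real.pi := by ring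
    rw [h2] at h1
    exact h1

theorem dense {d : ℕ} {C σ : ℝ} {K : Set ℂ} (h : Run7.h819.Inv.Super d C σ K) : Dense d C σ K :=
  fun c₀ hc₀ c hc hcc => ⟨h.att c₀ hc₀ c hc hcc, h.esc c₀ hc₀ c hc hcc, h.area c₀ hc₀ c hc hcc⟩

theorem both {d : ℕ} {σ : ℝ} {K : Set ℂ} (hd : 2 ≤ d)
    (h : ∃ C : ℝ, 0 < C ∧ Run7.h819.Inv.Super d C σ K) :
    ∃ C : ℝ, 0 < C ∧ Dense d C σ K ∧ (1 < σ → Hidden d C σ K) := by
  obtain ⟨C, hC, h⟩ := h
  by_cases hσ : 1 < σ
  · have h1 : 0 < σ - 1 := by linarith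
    refine ⟨max C ((σ - 1) * C), lt_max_of_lt_left hC, dense (h.mono_const (le_max_left _ _)), ?_⟩
    intro _
    have h2 : C ≤ max C ((σ - 1) * C) / (σ - 1) := by
      rw [le_div_iff₀ h1, mul_comm]
      exact le_max_right _ _
    refine hidden (h.mono_const h2) hd (lt_of_lt_of_le hC h2) hσ ?_
    field_simp
  · exact ⟨C, hC, dense h, fun h1 => absurd h1 hσ⟩

/-- **Collet-Eckmann parameters: superlinear density of hyperbolicity, and hidden from the
interior.** For every degree `d ≥ 2`: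

(1) uniformly for all Collet-Eckmann parameters with the constants `C₁`, `lam`, with all exponents
`σ < 1 / (1 - log lam / (d log (2 d)))`;

(2) under a recurrence condition with the exponent `β`, with all `σ < d / ((d - 1) (1 + β))`;

(3) a conformal map of the disc into the Multibrot set has at almost every angle a radial limit, and
this is not a Collet-Eckmann parameter; for conformal maps onto components of the interior the limits
lie on the boundary of the component;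

(4) almost every external ray lands at a Collet-Eckmann parameter, at which all exponents
`σ < d / (d - 1)` are allowed. -/
theorem result (d : ℕ) (hd : 2 ≤ d) :
    (∀ C₁ lam σ : ℝ, 1 ≤ C₁ → 1 < lam → 0 ≤ σ →
      σ * (1 - Real.log lam / (d * Real.log (2 * d))) < 1 → ∃ C : ℝ, 0 < C ∧
        Dense d C σ {c₀ | ColletEckmann d C₁ lam c₀} ∧
        (1 < σ → Hidden d C σ {c₀ | ColletEckmann d C₁ lam c₀})) ∧
    (∀ C₁ lam C₂ β σ : ℝ, 1 ≤ C₁ → 1 < lam → 0 < C₂ → 0 ≤ β → 0 ≤ σ →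
      σ * (1 + β) < d / ((d : ℝ) - 1) → ∃ C : ℝ, 0 < C ∧
        Dense d C σ {c₀ | ColletEckmann d C₁ lam c₀ ∧ Recurrence d C₂ β c₀} ∧
        (1 < σ → Hidden d C σ {c₀ | ColletEckmann d C₁ lam c₀ ∧ Recurrence d C₂ β c₀})) ∧
    (∀ φ : ℂ → ℂ, DifferentiableOn ℂ φ (ball 0 1) → InjOn φ (ball 0 1) →
      (∀ z ∈ ball (0 : ℂ) 1, φ z ∈ multibrotSet d) →
      ∀ᵐ t : ℝ, ∃ c ∈ multibrotSet d, RadialLimit φ t c ∧ c ∈ frontier (φ '' ball 0 1) ∧
        ∀ C₁ lam : ℝ, 1 < lam → ¬ ColletEckmann d C₁ lam c) ∧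
    (∃ ψ : ℂ → ℂ, IsExteriorMap (multibrotSet d) ψ) ∧
    ∀ ψ : ℂ → ℂ, IsExteriorMap (multibrotSet d) ψ →
      ∀ᵐ t : ℝ, ∃ c₀ ∈ frontier (multibrotSet d),
        Tendsto (fun r : ℝ => ψ (r * exp (t * I))) (𝓝[>] 1) (𝓝 c₀) ∧
        (∃ C₁ lam : ℝ, 1 ≤ C₁ ∧ 1 < lam ∧ ColletEckmann d C₁ lam c₀) ∧
        ∀ σ : ℝ, 0 ≤ σ → σ < d / ((d : ℝ) - 1) → ∃ C : ℝ, 0 < C ∧ Dense d C σ {c₀} ∧
          (1 < σ → Hidden d C σ {c₀}) := by
  have hpi := Real.pi_pos
  -- Collet-Eckmann parameters in the sense of the library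
  have hcep : ∀ C₁ lam : ℝ, 1 ≤ C₁ → 1 < lam → ∀ c : ℂ, ColletEckmann d C₁ lam c →
      Pool.Agent.Y298.SH.CD.CEp d C₁ lam c := fun C₁ lam h1 h2 c hc =>
    Pool.Agent.Y298.SH.CD.cep_of_mem hd h1 h2 hc.1 hc.2
  refine ⟨?_, ?_, ?_, ?_⟩
  · intro C₁ lam σ hC₁ hlam hσ0 hσ
    obtain ⟨C, hC, h⟩ := Run7.h819.Inv.super_ce hd hC₁ hlam hσ0 hσ
    exact both hd ⟨C, hC, h.mono fun c hc => hcep C₁ lam hC₁ hlam c hc⟩
  · intro C₁ lam C₂ β σ hC₁ hlam hC₂ hβ hσ0 hσ
    obtain ⟨C, hC, h⟩ := Run7.h819.Inv.super_rec hd C₁ lam hC₂ hβ hσ0 hσ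
    exact both hd ⟨C, hC, h.mono fun c hc => ⟨hcep C₁ lam hC₁ hlam c hc.1, hc.2⟩⟩
  · intro φ hφ hi hφM
    have hdR : (2 : ℝ) ≤ d := by exact_mod_cast hd
    have hlog : 0 < Real.log (2 * d) := Real.log_pos (by linarith)
    have hMcl : IsClosed (multibrotSet d) := (Pool.Agent.H712R2.isCompact_multibrot hd).isClosed
    -- one class
    have hone : ∀ n m : ℕ, ∃ C σ : ℝ, 0 < C ∧ 1 < σ ∧ Run7.h819.Inv.Super d C σ
        {c | Pool.Agent.Y298.SH.CD.CEp d (n + 1) (1 + 1 / (m + 1)) c} := by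
      intro n m
      have hm : (0 : ℝ) < 1 / (m + 1) := by positivity
      have hl : 0 < Real.log (1 + 1 / ((m : ℝ) + 1)) := Real.log_pos (by linarith)
      set q : ℝ := Real.log (1 + 1 / ((m : ℝ) + 1)) / (d * Real.log (2 * d)) with hq
      have hq0 : 0 < q := by positivity
      have hn : (1 : ℝ) ≤ (n : ℝ) + 1 := by
        have : (0 : ℝ) ≤ n := Nat.cast_nonneg n
        linarith
      obtain ⟨C, hC, h⟩ := Run7.h819.Inv.super_ce (C₁ := (n : ℝ) + 1)
        (lam := 1 + 1 / ((m : ℝ) + 1)) (σ := 1 + q) hd hn (by linarith) (by linarith)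
        (by rw [← hq]; nlinarith)
      exact ⟨C, 1 + q, hC, by linarith, h⟩
    have hae : ∀ᵐ t ∂(volume.restrict (Ioo (-Real.pi) Real.pi)), ∃ c ∈ multibrotSet d,
        RadialLimit φ t c ∧ c ∈ frontier (φ '' ball 0 1) ∧
        ∀ C₁ lam : ℝ, 1 < lam → ¬ ColletEckmann d C₁ lam c := by
      have hfin := Run7.h819.Inv.ae_fin hφ hi hφM
        (ne_top_of_le_ne_top ENNReal.ofReal_ne_top (Run7.h819.Inv.vol_M hd))
      filter_upwards [hfin] with t ht
      obtain ⟨c, hc⟩ := Run7.h819.Inv.exists_lim hφ ht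
      have hcM : c ∈ multibrotSet d := by
        refine hMcl.mem_of_tendsto hc ?_
        filter_upwards [Run7.h819.Inv.ev_lt (zero_lt_one' ℝ)] with r hr
        exact hφM _ (Run7.h819.Inv.ray_mem (Run7.h819.Inv.norm_e t) hr.1.le hr.2).1
      refine ⟨c, hcM, hc, Run7.h819.Inv.limit_frontier hφ hi hc, fun C₁ lam hlam hce => ?_⟩
      obtain ⟨n, hn⟩ := exists_nat_ge C₁
      obtain ⟨m, hm⟩ := exists_nat_one_div_lt (by linarith : 0 < lam - 1)
      obtain ⟨C, σ, hC, hσ, h⟩ := hone n m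
      refine Run7.h819.Inv.not_mem (h.thin φ hφ hφM) hσ hC.le (h.center_ne hC.le hσ hφ hi hφM)
        ht hc ?_
      have hm0 : (0 : ℝ) < 1 / (m + 1) := by positivity
      refine Pool.Agent.Y298.SH.CD.cep_of_mem hd ?_ (by linarith) hce.1 fun k => ?_
      · have : (0 : ℝ) ≤ n := Nat.cast_nonneg n
        linarith
      · calc (1 + 1 / ((m : ℝ) + 1)) ^ k ≤ lam ^ k := by
              gcongr
              linarith
          _ ≤ C₁ * ‖deriv ((f d c)^[k]) c‖ := hce.2 k
          _ ≤ ((n : ℝ) + 1) * ‖deriv ((f d c)^[k]) c‖ := by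
              gcongr
              linarith
    refine Run7.h819.Inv.ae_line (fun t => ?_) hae
    have h1 : ∀ r : ℝ, (r : ℂ) * exp (((t + 2 * Real.pi : ℝ) : ℂ) * I) = r * exp (t * I) := by
      intro r
      congr 1
      push_cast
      rw [add_mul, Complex.exp_add, Complex.exp_two_pi_mul_I, mul_one]
    simp only [RadialLimit, h1]
  · obtain ⟨β, hβ⟩ := exists_beta (d := d) hd
    refine ⟨⟨_, exteriorMap_of_beta hβ⟩, ?_⟩
    intro ψ hψ
    filter_upwards [Pool.Agent.Y272.TY.ae_neg' (Pool.Agent.Y272.TY.typical_all hd hβ)] with θ hθ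
    obtain ⟨c₀, A, R, h⟩ := hθ
    have hlyap := Pool.Agent.Y298.CA.lyap_of_typ hd hβ h
    refine ⟨c₀, h.frontier hd hβ, h.tendsto_psi hβ hψ, ?_, fun σ hσ0 hσ =>
      both hd (Run7.h819.Inv.super_lyap hd hlyap hσ0 hσ)⟩
    obtain ⟨C₁, lam, -, -, hce, -⟩ := Run7.h819.Inv.rec_of_lya hd hlyap one_pos
    exact ⟨C₁, lam, hce.C1, hce.lam1, hlyap.2.1, hce.exp⟩

end Pool.Agent.Results.MP_af9036_an.HiddenColletEckmann
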