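import Mathlib
import Pool.Prelude.Def_F_c31e40fa
import Pool.Agent.Run7.h911.Fin1

set_option autoImplicit false

open Filter Metric

namespace Pool.Agent.Results.MP_af9036_an.UniversalTransversality

/-- The polynomial `z ^ n + c`. -/
def f (n : ℕ) (c : ℂ) : ℂ → ℂ := fun z => z ^ n + c

/-- The parameters `c` for which `z ^ n + c` has an attracting cycle. -/
def hyp (n : ℕ) : Set ℂ := {c | ∃ m z, N62a1eb23.IsAttractingCycle (f n c) m z}

/-- The points `f^j(c)`, `1 ≤ j < N`, of the orbit of the critical value `c` are at distance at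
least `R` from `c`, except those at which the derivative `(f^j)'(c)` has modulus at least `K`. -/
def Rec (n : ℕ) (c : ℂ) (N : ℕ) (K R : ℝ) : Prop :=
  ∀ j, 1 ≤ j → j < N → R ≤ ‖(f n c)^[j] c - c‖ ∨ K ≤ ‖deriv (f n c)^[j] c‖

/-- Universal transversality for all the parameters of the Multibrot set: up to a polynomial factor
in the time and the distance of the closest return, the derivative of the iterate with respect to
the parameter dominates the derivative with respect to the variable at the critical value. -/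
theorem result (n : ℕ) (hn : 2 ≤ n) : ∃ A : ℕ,
    (∀ c ∈ N62a1eb23.multibrotSet n, ∀ N : ℕ, 2 ≤ N → ∀ R : ℝ, 0 < R → R ≤ 1 →
      Rec n c N ((N : ℝ) ^ A) R →
      -- (1) the two derivatives
      R * ‖deriv (f n c)^[N] c‖ ≤ (N : ℝ) ^ A * (1 + ‖deriv (fun t => (f n t)^[N] t) c‖) ∧
      -- (2) the distance to the superattracting parameters of period at most `N + 2`
      ∃ c' : ℂ, (∃ p, 1 ≤ p ∧ p ≤ N + 2 ∧ (f n c')^[p] 0 = 0 ∧
          N62a1eb23.IsAttractingCycle (f n c') p 0) ∧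
        ‖c' - c‖ * (R * ‖deriv (f n c)^[N] c‖) ≤ (N : ℝ) ^ A) ∧
    -- (3) a criterion for density of hyperbolicity at `c`
    (∀ c ∈ N62a1eb23.multibrotSet n,
      (∃ᶠ N : ℕ in atTop, ∃ R : ℝ, 0 < R ∧ R ≤ 1 ∧ Rec n c N ((N : ℝ) ^ A) R ∧
        (N : ℝ) ^ (A + 1) ≤ R * ‖deriv (f n c)^[N] c‖) →
      c ∈ closure (hyp n)) := by
  obtain ⟨A, h1, h2⟩ := Run7.h911.fin_trans hn
  have hP : ∀ (c : ℂ) (k : ℕ), deriv (f n c)^[k] c = Pool.Agent.W746.LD.P n c c k := fun c k =>
    (Pool.Agent.W746.LD.hasDerivAt_orb c k).deriv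
  have hD : ∀ (c : ℂ) (k : ℕ), deriv (fun t => (f n t)^[k] t) c = Pool.Agent.TH363.QI.D n c k :=
    fun c k => (Pool.Agent.TH363.QI.hasDerivAt_D n c k).deriv
  have hrec : ∀ (c : ℂ) (N : ℕ) (K R : ℝ), Rec n c N K R → Run7.h911.RecP n c N K R := by
    intro c N K R h j hj1 hj2
    have h3 := h j hj1 hj2
    rw [hP] at h3
    exact h3
  refine ⟨A, ?_, ?_⟩
  · intro c hc N hN R hR hR1 hr
    rw [hP, hD]
    exact h1 c hc N hN R hR hR1 (hrec c N _ R hr)
  · intro c hc hfr
    refine h2 c hc (hfr.mono ?_)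
    rintro N ⟨R, hR, hR1, hr, hbig⟩
    rw [hP] at hbig
    exact ⟨R, hR, hR1, hrec c N _ R hr, hbig⟩

end Pool.Agent.Results.MP_af9036_an.UniversalTransversality
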